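import Pool.Agent.Helper5.KPA.StD

/-! Module ACN of project KP, chapter A (counting dimensions modulo a graded submodule). -/

set_option autoImplicit false

namespace Pool.Agent.Helper2.KPA

open Pool.Agent.Helper5.KPA Pool.Agent.Helper52.KP MvPolynomial

section

variable {s : ℕ} {V : Type} [AddCommGroup V] [Module ℂ V]

theorem hp_nat (s n : ℕ) : hp s (n : ℤ) = homogeneousSubmodule (Fin s) ℂ n := by
  unfold hp
  rw [if_pos (by positivity), Int.toNat_natCast]

theorem hp_neg (s : ℕ) (i : ℤ) (hi : i < 0) : hp s i = ⊥ := by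
  unfold hp
  rw [if_neg (not_le.2 hi)]

theorem hp_fd (s : ℕ) (i : ℤ) : Module.Finite ℂ (hp s i) := by
  rcases lt_or_ge i 0 with h | h
  · rw [hp_neg s i h]
    infer_instance
  · obtain ⟨n, rfl⟩ := Int.eq_ofNat_of_zero_le h
    rw [hp_nat, Module.Finite.iff_fg]
    exact homogeneousSubmodule_fg (σ := Fin s) (R := ℂ) n

theorem hp_mul (s : ℕ) (i j : ℤ) (a b : MvPolynomial (Fin s) ℂ) (ha : a ∈ hp s i) (hb : b ∈ hp s j) :
    a * b ∈ hp s (i + j) := by
  rcases lt_or_ge i 0 with h | h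
  · rw [hp_neg s i h, Submodule.mem_bot] at ha
    rw [ha, zero_mul]
    exact Submodule.zero_mem _
  rcases lt_or_ge j 0 with h' | h'
  · rw [hp_neg s j h', Submodule.mem_bot] at hb
    rw [hb, mul_zero]
    exact Submodule.zero_mem _
  obtain ⟨n, rfl⟩ := Int.eq_ofNat_of_zero_le h
  obtain ⟨n', rfl⟩ := Int.eq_ofNat_of_zero_le h'
  rw [hp_nat, mem_homogeneousSubmodule] at ha hb
  have h1 : ((n : ℤ) + (n' : ℤ)) = ((n + n' : ℕ) : ℤ) := by push_cast; ring
  rw [h1, hp_nat, mem_homogeneousSubmodule]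
  exact ha.mul hb

theorem hp_X (s : ℕ) (l : Fin s) : (X l : MvPolynomial (Fin s) ℂ) ∈ hp s 1 := by
  have h1 : (1 : ℤ) = ((1 : ℕ) : ℤ) := rfl
  rw [h1, hp_nat, mem_homogeneousSubmodule]
  exact isHomogeneous_X ℂ l

theorem hp_C (s : ℕ) (c : ℂ) : (C c : MvPolynomial (Fin s) ℂ) ∈ hp s 0 := by
  have h1 : (0 : ℤ) = ((0 : ℕ) : ℤ) := rfl
  rw [h1, hp_nat, mem_homogeneousSubmodule]
  exact isHomogeneous_C (Fin s) c

/-- action of monomials -/
theorem act_mono (ι : MvPolynomial (Fin s) ℂ →ₐ[ℂ] Module.End ℂ V) (P : ℕ → Submodule ℂ V)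
    (hP : ∀ k i, ∀ x ∈ P k, ι (X i) x ∈ P (k + 1)) (n : ℕ) : ∀ (m : Fin s →₀ ℕ) (c : ℂ),
    m.degree = n → ∀ l, ∀ x ∈ P l, ι (monomial m c) x ∈ P (l + n) := by
  induction n with
  | zero =>
    intro m c hm l x hx
    have h1 : m = 0 := (Finsupp.degree_eq_zero_iff m).1 hm
    rw [h1]
    have h2 : ι (monomial 0 c) x = c • x := by
      have h3 : (monomial (0 : Fin s →₀ ℕ) c : MvPolynomial (Fin s) ℂ) = algebraMap ℂ _ c := rfl
      rw [h3, AlgHom.commutes, Module.algebraMap_end_apply]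
    rw [h2, add_zero]
    exact (P l).smul_mem c hx
  | succ n ih =>
    intro m c hm l x hx
    obtain ⟨i, hi⟩ : ∃ i, m i ≠ 0 := by
      by_contra h
      push Not at h
      have h0 : m = 0 := by
        ext i
        exact h i
      rw [h0] at hm
      simp at hm
    have h1 : m = Finsupp.single i 1 + (m - Finsupp.single i 1) := by
      rw [add_tsub_cancel_of_le]
      rw [Finsupp.single_le_iff]
      omega
    have h2 : (m - Finsupp.single i 1).degree = n := by
      have h3 := congrArg Finsupp.degree h1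
      rw [map_add, Finsupp.degree_single] at h3
      omega
    have h3 : (monomial m c : MvPolynomial (Fin s) ℂ) = X i * monomial (m - Finsupp.single i 1) c := by
      rw [X, monomial_mul, one_mul, ← h1]
    rw [h3, map_mul, Module.End.mul_apply, ← add_assoc]
    exact hP _ i _ (ih _ c h2 l x hx)

theorem act_hp (ι : MvPolynomial (Fin s) ℂ →ₐ[ℂ] Module.End ℂ V) (P : ℕ → Submodule ℂ V)
    (hP : ∀ k i, ∀ x ∈ P k, ι (X i) x ∈ P (k + 1)) (k l : ℕ) (β : MvPolynomial (Fin s) ℂ)
    (hβ : β ∈ hp s ((k : ℤ) - l)) (x : V) (hx : x ∈ P l) : ι β x ∈ P k := by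
  rcases lt_or_ge k l with h | h
  · rw [hp_neg s _ (by omega), Submodule.mem_bot] at hβ
    rw [hβ, map_zero, LinearMap.zero_apply]
    exact (P k).zero_mem
  · obtain ⟨n, rfl⟩ := Nat.exists_eq_add_of_le h
    have h1 : (((l + n : ℕ) : ℤ) - l) = (n : ℤ) := by push_cast; ring
    rw [h1, hp_nat, mem_homogeneousSubmodule] at hβ
    rw [β.as_sum, map_sum, LinearMap.sum_apply]
    apply Submodule.sum_mem
    intro m hm
    apply act_mono ι P hP n m _ _ l x hx
    have h2 := hβ (mem_support_iff.1 hm)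
    rw [← h2]
    exact DFunLike.congr_fun Finsupp.degree_eq_weight_one m

theorem act_C (ι : MvPolynomial (Fin s) ℂ →ₐ[ℂ] Module.End ℂ V) (c : ℂ) (x : V) :
    ι (C c) x = c • x := by
  have h3 : (C c : MvPolynomial (Fin s) ℂ) = algebraMap ℂ _ c := rfl
  rw [h3, AlgHom.commutes, Module.algebraMap_end_apply]

/-- generators modulo `M'` -/
theorem gens (ι : MvPolynomial (Fin s) ℂ →ₐ[ℂ] Module.End ℂ V) (M' M : ℕ → Submodule ℂ V)
    (hGr : Gr ι M) (hF : FgM ι M' M) :
    ∃ (I : Type) (_ : Fintype I) (d : I → ℕ) (w : I → V), (∀ i, w i ∈ M (d i)) ∧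
      ∀ k, ∀ x ∈ M k, ∃ β : I → MvPolynomial (Fin s) ℂ, (∀ i, β i ∈ hp s ((k : ℤ) - d i)) ∧
        x - ∑ i, ι (β i) (w i) ∈ M' k := by
  classical
  obtain ⟨D, hD⟩ := hF.fg
  have hfd := hGr.fd
  let I : Type := Σ d : Fin (D + 1), Fin (Module.finrank ℂ (M (d : ℕ)))
  let b : ∀ d : ℕ, Module.Basis (Fin (Module.finrank ℂ (M d))) ℂ (M d) := fun d =>
    Module.finBasis ℂ (M d)
  refine ⟨I, inferInstance, fun i => i.1, fun i => (b i.1 i.2 : V), fun i => (b i.1 i.2).2, ?_⟩
  have low : ∀ k ≤ D, ∀ x ∈ M k, ∃ β : I → MvPolynomial (Fin s) ℂ,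
      (∀ i, β i ∈ hp s ((k : ℤ) - ((i.1 : ℕ) : ℤ))) ∧ x - ∑ i : I, ι (β i) (b i.1 i.2 : V) ∈ M' k := by
    intro k hk x hx
    have hxs : x ∈ Submodule.span ℂ ((fun i : I => (b i.1 i.2 : V)) ''
        ((Finset.univ.filter fun i : I => (i.1 : ℕ) = k : Finset I) : Set I)) := by
      have h1 : (⟨x, hx⟩ : M k) = ∑ j, (b k).repr ⟨x, hx⟩ j • b k j := ((b k).sum_repr _).symm
      have h2 : x = ∑ j, (b k).repr ⟨x, hx⟩ j • (b k j : V) := by
        have h3 := congrArg (Subtype.val) h1
        rw [Submodule.coe_sum] at h3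
        exact h3
      rw [h2]
      apply Submodule.sum_mem
      intro j _
      apply Submodule.smul_mem
      apply Submodule.subset_span
      refine ⟨⟨⟨k, Nat.lt_succ_of_le hk⟩, j⟩, ?_, rfl⟩
      simp
    rw [Submodule.mem_span_image_finset_iff_exists_fun'] at hxs
    obtain ⟨c, hc⟩ := hxs
    refine ⟨fun i => if (i.1 : ℕ) = k then C (c i) else 0, ?_, ?_⟩
    · intro i
      by_cases hi : (i.1 : ℕ) = k
      · simp only [if_pos hi]
        rw [hi, sub_self]
        exact hp_C s _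
      · simp only [if_neg hi]
        exact Submodule.zero_mem _
    · have e1 : ∑ i : I, ι (if (i.1 : ℕ) = k then C (c i) else 0) (b i.1 i.2 : V) = x := by
        rw [← hc, Finset.sum_filter]
        apply Finset.sum_congr rfl
        intro i _
        by_cases hi : (i.1 : ℕ) = k
        · rw [if_pos hi, if_pos hi, act_C]
        · rw [if_neg hi, if_neg hi, map_zero, LinearMap.zero_apply]
      rw [e1, sub_self]
      exact Submodule.zero_mem _
  intro k
  induction k with
  | zero =>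
    intro x hx
    exact low 0 (Nat.zero_le D) x hx
  | succ k ih =>
    rcases Nat.lt_or_ge k D with h | h
    · intro x hx
      exact low (k + 1) h x hx
    · intro x hx
      obtain ⟨y, hy, hxy⟩ := hD k h x hx
      choose β hβ1 hβ2 using fun l => ih (y l) (hy l)
      refine ⟨fun i => ∑ l, X l * β l i, ?_, ?_⟩
      · intro i
        apply Submodule.sum_mem
        intro l _
        have h1 := hp_mul s 1 ((k : ℤ) - (i.1 : ℕ)) _ _ (hp_X s l) (hβ1 l i)
        have h2 : (1 : ℤ) + ((k : ℤ) - (i.1 : ℕ)) = ((k + 1 : ℕ) : ℤ) - (i.1 : ℕ) := by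
          push_cast
          ring
        rwa [h2] at h1
      · have e1 : x - ∑ i : I, ι (∑ l, X l * β l i) (b i.1 i.2 : V)
            = (x - ∑ l, ι (X l) (y l)) + ∑ l, ι (X l) (y l - ∑ i : I, ι (β l i) (b i.1 i.2 : V)) := by
          have e2 : ∀ i : I, ι (∑ l, X l * β l i) (b i.1 i.2 : V)
              = ∑ l, ι (X l) (ι (β l i) (b i.1 i.2 : V)) := by
            intro i
            rw [map_sum, LinearMap.sum_apply]
            apply Finset.sum_congr rfl
            intro l _
            rw [map_mul, Module.End.mul_apply]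
          rw [Finset.sum_congr rfl fun i _ => e2 i]
          simp only [map_sub, map_sum, Finset.sum_sub_distrib]
          rw [Finset.sum_comm]
          abel
        rw [e1]
        apply Submodule.add_mem _ hxy
        apply Submodule.sum_mem
        intro l _
        exact hF.act k l _ (hβ2 l)

/-- linear combinations -/
noncomputable def comb (ι : MvPolynomial (Fin s) ℂ →ₐ[ℂ] Module.End ℂ V) {I : Type} [Fintype I]
    (w : I → V) (a : I → ℤ) : (∀ i, hp s (a i)) →ₗ[ℂ] V where
  toFun β := ∑ i, ι (β i).1 (w i)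
  map_add' := by
    intro β β'
    rw [← Finset.sum_add_distrib]
    apply Finset.sum_congr rfl
    intro i _
    rw [Pi.add_apply, Submodule.coe_add, map_add, LinearMap.add_apply]
  map_smul' := by
    intro c β
    rw [RingHom.id_apply, Finset.smul_sum]
    apply Finset.sum_congr rfl
    intro i _
    rw [Pi.smul_apply, Submodule.coe_smul, map_smul, LinearMap.smul_apply]

theorem comb_apply (ι : MvPolynomial (Fin s) ℂ →ₐ[ℂ] Module.End ℂ V) {I : Type} [Fintype I]
    (w : I → V) (a : I → ℤ) (β : ∀ i, hp s (a i)) : comb ι w a β = ∑ i, ι (β i).1 (w i) := rfl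

theorem finrank_comb {I : Type} [Fintype I] (a : I → ℤ) :
    (Module.finrank ℂ (∀ i, hp s (a i)) : ℝ) = ∑ i, hn s (a i) := by
  have := fun i => hp_fd s (a i)
  rw [Module.finrank_pi_fintype, Nat.cast_sum]
  rfl

/-- the count in one degree -/
theorem count (ι : MvPolynomial (Fin s) ℂ →ₐ[ℂ] Module.End ℂ V) (M' M : ℕ → Submodule ℂ V)
    {c : ℕ} (t : Fin c → V) (dt : Fin c → ℕ) (γ : ℕ) (g : MvPolynomial (Fin s) ℂ)
    (hGr : Gr ι M) (hF : FgM ι M' M) (hB : Bas ι M' M t dt γ g)
    {I : Type} [Fintype I] (d : I → ℕ) (w : I → V) (hw : ∀ i, w i ∈ M (d i)) (k : ℕ)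
    (hgen : ∀ x ∈ M k, ∃ β : I → MvPolynomial (Fin s) ℂ, (∀ i, β i ∈ hp s ((k : ℤ) - d i)) ∧
        x - ∑ i, ι (β i) (w i) ∈ M' k) :
    (Module.finrank ℂ (M' k) : ℝ) + ∑ j, hn s ((k : ℤ) - dt j) ≤ Module.finrank ℂ (M k) ∧
    (Module.finrank ℂ (M k) : ℝ) + ∑ i, hn s ((k : ℤ) - d i - γ) ≤
      Module.finrank ℂ (M' k) + ∑ j, hn s ((k : ℤ) - dt j) + ∑ i, hn s ((k : ℤ) - d i) := by
  classical
  have hfM := hGr.fd k
  have hfM' : FiniteDimensional ℂ (M' k) := Submodule.finiteDimensional_of_le (hF.le k)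
  have hfh : ∀ i, Module.Finite ℂ (hp s i) := hp_fd s
  have hMact : ∀ (l : ℕ) (β : MvPolynomial (Fin s) ℂ), β ∈ hp s ((k : ℤ) - l) → ∀ x ∈ M l,
      ι β x ∈ M k := fun l β hβ x hx => act_hp ι M hGr.act k l β hβ x hx
  let Φ : (M' k × (∀ j : Fin c, hp s ((k : ℤ) - dt j))) →ₗ[ℂ] V :=
    LinearMap.coprod (M' k).subtype (comb ι t fun j => (k : ℤ) - dt j)
  have hΦ : ∀ m α, Φ (m, α) = m.1 + ∑ j, ι (α j).1 (t j) := by
    intro m α
    rfl
  have hΦinj : Function.Injective Φ := by
    rw [← LinearMap.ker_eq_bot, LinearMap.ker_eq_bot']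
    rintro ⟨m, α⟩ h
    rw [hΦ] at h
    have h1 : ∑ j, ι (α j).1 (t j) = -m.1 := by
      rw [eq_neg_iff_add_eq_zero, add_comm]
      exact h
    have h2 : (fun j => (α j).1) = 0 := by
      apply hB.ind (fun j => (α j).1)
      rw [h1]
      exact Submodule.neg_mem _ ((le_iSup M' k) m.2)
    have h3 : α = 0 := by
      funext j
      apply Subtype.ext
      exact congrFun h2 j
    subst h3
    have h4 : m.1 = 0 := by
      have h5 : ∑ j : Fin c, ι ((0 : ∀ j : Fin c, hp s ((k : ℤ) - dt j)) j).1 (t j) = 0 := by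
        apply Finset.sum_eq_zero
        intro j _
        rw [Pi.zero_apply, Submodule.coe_zero, map_zero, LinearMap.zero_apply]
      rw [h5] at h1
      exact neg_eq_zero.1 h1.symm
    have h6 : m = 0 := Subtype.ext h4
    rw [h6]
    rfl
  obtain ⟨Q, hQ⟩ : ∃ Q : Submodule ℂ V, Q = LinearMap.range Φ := ⟨_, rfl⟩
  have hQle : Q ≤ M k := by
    rw [hQ]
    rintro _ ⟨⟨m, α⟩, rfl⟩
    rw [hΦ]
    apply Submodule.add_mem _ (hF.le k m.2)
    apply Submodule.sum_mem
    intro j _
    exact hMact (dt j) _ (α j).2 _ (hB.mem j)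
  have hfQ : FiniteDimensional ℂ Q := Submodule.finiteDimensional_of_le hQle
  have hQrank : (Module.finrank ℂ Q : ℝ) = Module.finrank ℂ (M' k) + ∑ j, hn s ((k : ℤ) - dt j) := by
    have h1 : Module.finrank ℂ Q = Module.finrank ℂ (M' k × (∀ j : Fin c, hp s ((k : ℤ) - dt j))) := by
      rw [hQ]
      exact LinearMap.finrank_range_of_inj hΦinj
    rw [h1, Module.finrank_prod, Nat.cast_add, finrank_comb]
  rw [← hQrank]
  constructor
  · exact_mod_cast Submodule.finrank_mono hQle
  · let Θ : (Q × (∀ i : I, hp s ((k : ℤ) - d i))) →ₗ[ℂ] V :=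
      LinearMap.coprod Q.subtype (comb ι w fun i => (k : ℤ) - d i)
    have hΘ : ∀ q β, Θ (q, β) = q.1 + ∑ i, ι (β i).1 (w i) := by
      intro q β
      rfl
    have hM'Q : M' k ≤ Q := by
      intro x hx
      rw [hQ]
      refine ⟨(⟨x, hx⟩, 0), ?_⟩
      rw [hΦ]
      have h5 : ∑ j : Fin c, ι ((0 : ∀ j : Fin c, hp s ((k : ℤ) - dt j)) j).1 (t j) = 0 := by
        apply Finset.sum_eq_zero
        intro j _
        rw [Pi.zero_apply, Submodule.coe_zero, map_zero, LinearMap.zero_apply]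
      rw [h5, add_zero]
    have hΘr : LinearMap.range Θ = M k := by
      apply le_antisymm
      · rintro _ ⟨⟨q, β⟩, rfl⟩
        rw [hΘ]
        apply Submodule.add_mem _ (hQle q.2)
        apply Submodule.sum_mem
        intro i _
        exact hMact (d i) _ (β i).2 _ (hw i)
      · intro x hx
        obtain ⟨β, hβ1, hβ2⟩ := hgen x hx
        refine ⟨(⟨_, hM'Q hβ2⟩, fun i => ⟨β i, hβ1 i⟩), ?_⟩
        rw [hΘ]
        simp only
        rw [sub_add_cancel]
    have hsum := LinearMap.finrank_range_add_finrank_ker Θ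
    rw [hΘr, Module.finrank_prod] at hsum
    -- the kernel
    have hgk : ∀ (i : I) (β : MvPolynomial (Fin s) ℂ), β ∈ hp s ((k : ℤ) - d i - γ) →
        g * β ∈ hp s ((k : ℤ) - d i) := by
      intro i β hβ
      have h1 := hp_mul s γ _ g β hB.gh hβ
      have h2 : (γ : ℤ) + ((k : ℤ) - d i - γ) = (k : ℤ) - d i := by ring
      rwa [h2] at h1
    have hgQ : ∀ (i : I) (β : MvPolynomial (Fin s) ℂ), β ∈ hp s ((k : ℤ) - d i - γ) →
        ι (g * β) (w i) ∈ Q := by
      intro i β hβ
      rcases lt_or_ge k γ with h | h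
      · rw [hp_neg s _ (by omega), Submodule.mem_bot] at hβ
        rw [hβ, mul_zero, map_zero, LinearMap.zero_apply]
        exact Q.zero_mem
      · obtain ⟨n, rfl⟩ := Nat.exists_eq_add_of_le' h
        have hβ' : β ∈ hp s ((n : ℤ) - d i) := by
          have h2 : (((n + γ : ℕ) : ℤ) - d i - γ) = (n : ℤ) - d i := by push_cast; ring
          rwa [h2] at hβ
        obtain ⟨α, hα1, hα2⟩ := hB.exp n _ (act_hp ι M hGr.act n (d i) β hβ' _ (hw i))
        rw [map_mul, Module.End.mul_apply, hQ]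
        have hα1' : ∀ j, α j ∈ hp s (((n + γ : ℕ) : ℤ) - dt j) := by
          intro j
          have h2 := hα1 j
          have h3 : (n : ℤ) + γ - dt j = ((n + γ : ℕ) : ℤ) - dt j := by push_cast; ring
          rwa [h3] at h2
        refine ⟨(⟨_, hα2⟩, fun j => ⟨α j, hα1' j⟩), ?_⟩
        rw [hΦ]
        simp only
        rw [sub_add_cancel]
    let Ξ : (∀ i : I, hp s ((k : ℤ) - d i - γ)) →ₗ[ℂ] LinearMap.ker Θ :=
      { toFun := fun β => ⟨(⟨-∑ i, ι (g * (β i).1) (w i), Q.neg_mem (Q.sum_mem fun i _ => hgQ i _ (β i).2)⟩,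
            fun i => ⟨g * (β i).1, hgk i _ (β i).2⟩), by
              rw [LinearMap.mem_ker, hΘ]
              simp⟩
        map_add' := by
          intro β β'
          apply Subtype.ext
          apply Prod.ext
          · apply Subtype.ext
            show -∑ i, ι (g * ((β + β') i).1) (w i) = -∑ i, ι (g * (β i).1) (w i) + -∑ i, ι (g * (β' i).1) (w i)
            rw [← neg_add, ← Finset.sum_add_distrib]
            congr 1
            apply Finset.sum_congr rfl
            intro i _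
            rw [Pi.add_apply, Submodule.coe_add, mul_add, map_add, LinearMap.add_apply]
          · funext i
            apply Subtype.ext
            show g * ((β + β') i).1 = g * (β i).1 + g * (β' i).1
            rw [Pi.add_apply, Submodule.coe_add, mul_add]
        map_smul' := by
          intro a β
          apply Subtype.ext
          apply Prod.ext
          · apply Subtype.ext
            show -∑ i, ι (g * ((a • β) i).1) (w i) = a • -∑ i, ι (g * (β i).1) (w i)
            rw [smul_neg, Finset.smul_sum]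
            congr 1
            apply Finset.sum_congr rfl
            intro i _
            rw [Pi.smul_apply, Submodule.coe_smul, mul_smul_comm, map_smul, LinearMap.smul_apply]
          · funext i
            apply Subtype.ext
            show g * ((a • β) i).1 = a • (g * (β i).1)
            rw [Pi.smul_apply, Submodule.coe_smul, mul_smul_comm] }
    have hΞ : Function.Injective Ξ := by
      intro β β' h
      funext i
      apply Subtype.ext
      have h1 := congrArg (fun z => ((z : LinearMap.ker Θ).1.2 i).1) h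
      exact mul_left_cancel₀ hB.g0 h1
    have hker := LinearMap.finrank_le_finrank_of_injective hΞ
    have h1 : (Module.finrank ℂ (∀ i : I, hp s ((k : ℤ) - d i - γ)) : ℝ) ≤ Module.finrank ℂ (LinearMap.ker Θ) := by
      exact_mod_cast hker
    rw [finrank_comb] at h1
    have h2 : (Module.finrank ℂ (M k) : ℝ) + Module.finrank ℂ (LinearMap.ker Θ) =
        Module.finrank ℂ Q + Module.finrank ℂ (∀ i : I, hp s ((k : ℤ) - d i)) := by
      exact_mod_cast hsum
    rw [finrank_comb] at h2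
    linarith

end

theorem hACN (hAHN : StAHN) : StACN := by
  intro s V _ _ ι M' M c t dt γ g hGr hF hB
  obtain ⟨I, _, d, w, hw, hgen⟩ := gens ι M' M hGr hF
  choose K1 hK1 using fun i => (hAHN s (-(d i : ℤ))).1
  choose K2 hK2 using fun i => (hAHN s (-(d i : ℤ) - γ)).1
  refine ⟨∑ i, (K1 i + K2 i), ?_⟩
  intro k hk
  obtain ⟨h1, h2⟩ := count ι M' M t dt γ g hGr hF hB d w hw k (hgen k)
  have hk0 : (0 : ℝ) ≤ k := by positivity
  have h3 : ∀ i, (hn (s + 1) ((k : ℤ) - d i) - hn (s + 1) ((k : ℤ) - d i - γ)) * (k : ℝ) ≤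
      (K1 i + K2 i) * (k : ℝ) ^ s := by
    intro i
    have a1 := hK1 i k hk
    have a2 := hK2 i k hk
    have e1 : (k : ℤ) + -(d i : ℤ) = (k : ℤ) - d i := by ring
    have e2 : (k : ℤ) + (-(d i : ℤ) - γ) = (k : ℤ) - d i - γ := by ring
    simp only [e1] at a1
    simp only [e2] at a2
    have b1 := mul_le_mul_of_nonneg_right (le_abs_self (hn (s + 1) ((k : ℤ) - d i) -
      1 / (s.factorial : ℝ) * (k : ℝ) ^ s)) hk0
    have b2 := mul_le_mul_of_nonneg_right (neg_abs_le (hn (s + 1) ((k : ℤ) - d i - γ) -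
      1 / (s.factorial : ℝ) * (k : ℝ) ^ s)) hk0
    nlinarith
  have h4 : (Module.finrank ℂ (M k) : ℝ) - Module.finrank ℂ (M' k) -
      ∑ j, hn (s + 1) ((k : ℤ) - dt j) ≤
      ∑ i, (hn (s + 1) ((k : ℤ) - d i) - hn (s + 1) ((k : ℤ) - d i - γ)) := by
    rw [Finset.sum_sub_distrib]
    linarith
  rw [zero_mul, sub_zero, abs_of_nonneg (by linarith), Finset.sum_mul]
  calc _ ≤ (∑ i, (hn (s + 1) ((k : ℤ) - d i) - hn (s + 1) ((k : ℤ) - d i - γ))) * (k : ℝ) :=
        mul_le_mul_of_nonneg_right h4 hk0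
    _ = ∑ i, (hn (s + 1) ((k : ℤ) - d i) - hn (s + 1) ((k : ℤ) - d i - γ)) * (k : ℝ) :=
        Finset.sum_mul _ _ _
    _ ≤ _ := Finset.sum_le_sum fun i _ => h3 i

end Pool.Agent.Helper2.KPA
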