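import Pool.Agent.Helper5.KPA.StD

/-! Module AHN of project KP, chapter A (number of monomials, asymptotics). -/

set_option autoImplicit false

namespace Pool.Agent.Helper2.KPA

open Pool.Agent.Helper5.KPA Pool.Agent.Helper52.KP MvPolynomial

theorem finrank_homog_card (s n : ℕ) :
    Module.finrank ℂ (homogeneousSubmodule (Fin (s + 1)) ℂ n) =
      Nat.card {α : Fin (s + 1) →₀ ℕ // α.degree = n} := by
  rw [homogeneousSubmodule_eq_finsupp_supported]
  exact Module.finrank_eq_nat_card_basis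
    (Module.Basis.ofRepr (AddMonoidAlgebra.supportedEquivFinsupp (R := ℂ) (S := ℂ)
      {d : Fin (s + 1) →₀ ℕ | d.degree = n}))

theorem finrank_homog (s n : ℕ) :
    Module.finrank ℂ (homogeneousSubmodule (Fin (s + 1)) ℂ n) = (n + s).choose s := by
  rw [finrank_homog_card]
  have h2 : Nat.card {α : Fin (s + 1) →₀ ℕ // α.degree = n} = Nat.card (Sym (Fin (s + 1)) n) := by
    refine Nat.card_congr ((Sym.equivNatSum (Fin (s + 1)) n).trans ?_).symm
    refine Equiv.subtypeEquivRight fun α => ?_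
    rw [Finsupp.degree_apply, Finsupp.sum]
    simp
  rw [h2, Nat.card_eq_fintype_card, Sym.card_sym_eq_choose, Fintype.card_fin]
  have h3 : s + 1 + n - 1 = n + s := by omega
  rw [h3, Nat.choose_symm_add]

theorem hn_neg (s : ℕ) (i : ℤ) (hi : i < 0) : hn s i = 0 := by
  unfold hn hp
  rw [if_neg (not_le.2 hi), finrank_bot, Nat.cast_zero]

theorem hn_pos (s : ℕ) (i : ℤ) (hi : 0 ≤ i) :
    hn (s + 1) i = (∏ j ∈ Finset.range s, ((i : ℝ) + 1 + j)) / (s.factorial : ℝ) := by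
  obtain ⟨n, rfl⟩ := Int.eq_ofNat_of_zero_le hi
  unfold hn hp
  rw [if_pos hi, Int.toNat_natCast, finrank_homog]
  have h1 : (n + 1).ascFactorial s = s.factorial * (n + s).choose s :=
    Nat.ascFactorial_eq_factorial_mul_choose n s
  rw [Nat.ascFactorial_eq_prod_range] at h1
  have h2 : (∏ j ∈ Finset.range s, (((n : ℤ) : ℝ) + 1 + j)) = (s.factorial : ℝ) * ((n + s).choose s : ℝ) := by
    have h3 := congrArg (Nat.cast : ℕ → ℝ) h1
    push_cast at h3 ⊢
    exact h3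
  rw [h2]
  have h4 : (s.factorial : ℝ) ≠ 0 := by exact_mod_cast Nat.factorial_ne_zero s
  field_simp

theorem p1 (a : ℝ) (s : ℕ) : ∃ K : ℝ, 0 ≤ K ∧ ∀ x : ℝ, 1 ≤ x →
    |∏ i ∈ Finset.range s, (x + a + 1 + i) - x ^ s| * x ≤ K * x ^ s := by
  induction s with
  | zero =>
    refine ⟨0, le_refl _, ?_⟩
    intro x _
    simp
  | succ s ih =>
    obtain ⟨K, hK, h⟩ := ih
    refine ⟨K * (1 + |a + 1 + s|) + |a + 1 + s|, by positivity, ?_⟩
    intro x hx
    rw [Finset.prod_range_succ]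
    have hb : |x + a + 1 + s| ≤ x * (1 + |a + 1 + s|) := by
      have h1 : |x + a + 1 + s| ≤ |x| + |a + 1 + s| := by
        have := abs_add_le x (a + 1 + s)
        rwa [← add_assoc, ← add_assoc] at this
      rw [abs_of_nonneg (by linarith : (0:ℝ) ≤ x)] at h1
      have h2 : |a + 1 + s| ≤ x * |a + 1 + s| := by
        nlinarith [abs_nonneg (a + 1 + (s:ℝ))]
      linarith
    have e1 : (∏ i ∈ Finset.range s, (x + a + 1 + i)) * (x + a + 1 + s) - x ^ (s + 1)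
        = (∏ i ∈ Finset.range s, (x + a + 1 + i) - x ^ s) * (x + a + 1 + s) + x ^ s * (a + 1 + s) := by
      ring
    rw [e1]
    have hxs : 0 < x ^ s := by positivity
    have h3 := h x hx
    calc |(∏ i ∈ Finset.range s, (x + a + 1 + i) - x ^ s) * (x + a + 1 + s) + x ^ s * (a + 1 + s)| * x
        ≤ (|∏ i ∈ Finset.range s, (x + a + 1 + i) - x ^ s| * |x + a + 1 + s| + x ^ s * |a + 1 + s|) * x := by
          apply mul_le_mul_of_nonneg_right _ (by linarith)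
          refine (abs_add_le _ _).trans ?_
          rw [abs_mul, abs_mul, abs_of_pos hxs]
      _ = (|∏ i ∈ Finset.range s, (x + a + 1 + i) - x ^ s| * x) * |x + a + 1 + s| + x ^ s * x * |a + 1 + s| := by
          ring
      _ ≤ (K * x ^ s) * (x * (1 + |a + 1 + s|)) + x ^ s * x * |a + 1 + s| := by
          have h4 := mul_le_mul h3 hb (abs_nonneg _) (by positivity)
          linarith
      _ = (K * (1 + |a + 1 + s|) + |a + 1 + s|) * x ^ (s + 1) := by ring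

theorem p2 (a : ℝ) (s : ℕ) : ∃ K : ℝ, 0 ≤ K ∧ ∀ x : ℝ, 1 ≤ x →
    |∏ i ∈ Finset.range (s + 1), (x + a + 1 + i) -
      (x ^ (s + 1) + ((s + 1) * a + (s + 1) * (s + 2) / 2) * x ^ s)| * x ^ 2 ≤ K * x ^ (s + 1) := by
  induction s with
  | zero =>
    refine ⟨0, le_refl _, ?_⟩
    intro x _
    rw [Finset.prod_range_one]
    have : x + a + 1 + ((0 : ℕ) : ℝ) - (x ^ (0 + 1) + ((((0 : ℕ) : ℝ) + 1) * a + (((0 : ℕ) : ℝ) + 1) * (((0 : ℕ) : ℝ) + 2) / 2) * x ^ 0) = 0 := by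
      push_cast
      ring
    rw [this]
    simp
  | succ s ih =>
    obtain ⟨K, hK, h⟩ := ih
    obtain ⟨b, hb⟩ : ∃ b : ℝ, b = a + 1 + (s + 1) := ⟨_, rfl⟩
    obtain ⟨c, hc⟩ : ∃ c : ℝ, c = (s + 1) * a + (s + 1) * (s + 2) / 2 := ⟨_, rfl⟩
    rw [← hc] at h
    refine ⟨K * (1 + |b|) + |c| * |b|, by positivity, ?_⟩
    intro x hx
    rw [Finset.prod_range_succ]
    have hbb : |x + b| ≤ x * (1 + |b|) := by
      have h1 : |x + b| ≤ |x| + |b| := abs_add_le x b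
      rw [abs_of_nonneg (by linarith : (0:ℝ) ≤ x)] at h1
      have h2 : |b| ≤ x * |b| := by
        nlinarith [abs_nonneg b]
      linarith
    obtain ⟨P, hP⟩ : ∃ P : ℝ, P = ∏ i ∈ Finset.range (s + 1), (x + a + 1 + i) := ⟨_, rfl⟩
    have h3 := h x hx
    rw [← hP] at h3 ⊢
    have e1 : P * (x + a + 1 + ((s + 1 : ℕ) : ℝ)) - (x ^ (s + 1 + 1) +
        ((((s + 1 : ℕ) : ℝ) + 1) * a + (((s + 1 : ℕ) : ℝ) + 1) * (((s + 1 : ℕ) : ℝ) + 2) / 2) * x ^ (s + 1))
        = (P - (x ^ (s + 1) + c * x ^ s)) * (x + b) + x ^ s * (c * b) := by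
      rw [hc, hb]
      push_cast
      ring
    rw [e1]
    have hxs : 0 < x ^ s := by positivity
    calc |(P - (x ^ (s + 1) + c * x ^ s)) * (x + b) + x ^ s * (c * b)| * x ^ 2
        ≤ (|P - (x ^ (s + 1) + c * x ^ s)| * |x + b| + x ^ s * (|c| * |b|)) * x ^ 2 := by
          apply mul_le_mul_of_nonneg_right _ (by positivity)
          refine (abs_add_le _ _).trans ?_
          rw [abs_mul, abs_mul, abs_of_pos hxs, abs_mul]
      _ = (|P - (x ^ (s + 1) + c * x ^ s)| * x ^ 2) * |x + b| + x ^ s * x ^ 2 * (|c| * |b|) := by ring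
      _ ≤ (K * x ^ (s + 1)) * (x * (1 + |b|)) + x ^ s * x ^ 2 * (|c| * |b|) := by
          have h4 := mul_le_mul h3 hbb (abs_nonneg _) (by positivity)
          linarith
      _ = (K * (1 + |b|) + |c| * |b|) * x ^ (s + 1 + 1) := by ring

theorem hAHN : StAHN := by
  intro s a
  constructor
  · obtain ⟨K, hK, h⟩ := p1 (a : ℝ) s
    refine ⟨K + |(a : ℝ)|, ?_⟩
    intro k hk
    have hk1 : (1 : ℝ) ≤ k := by exact_mod_cast hk
    have hf : (1 : ℝ) ≤ (s.factorial : ℝ) := by exact_mod_cast Nat.one_le_iff_ne_zero.2 (Nat.factorial_ne_zero s)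
    have hf' : (1 / (s.factorial : ℝ)) ≤ 1 := by
      rw [div_le_one (by linarith)]
      exact hf
    have hf0 : (0 : ℝ) < 1 / (s.factorial : ℝ) := by positivity
    by_cases hka : 0 ≤ (k : ℤ) + a
    · show |hn (s + 1) ((k : ℤ) + a) - 1 / (s.factorial : ℝ) * (k : ℝ) ^ s| * (k : ℝ) ≤ _
      rw [hn_pos s _ hka]
      have e1 : (∏ j ∈ Finset.range s, ((((k : ℤ) + a : ℤ) : ℝ) + 1 + j)) / (s.factorial : ℝ)
          - 1 / (s.factorial : ℝ) * (k : ℝ) ^ s
          = (∏ j ∈ Finset.range s, ((k : ℝ) + a + 1 + j) - (k : ℝ) ^ s) * (1 / (s.factorial : ℝ)) := by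
        push_cast
        ring
      rw [e1, abs_mul, abs_of_pos hf0]
      have h1 := h k hk1
      have h2 : 0 ≤ |∏ j ∈ Finset.range s, ((k : ℝ) + a + 1 + j) - (k : ℝ) ^ s| * (k : ℝ) := by positivity
      calc |∏ j ∈ Finset.range s, ((k : ℝ) + a + 1 + j) - (k : ℝ) ^ s| * (1 / (s.factorial : ℝ)) * (k : ℝ)
          = (|∏ j ∈ Finset.range s, ((k : ℝ) + a + 1 + j) - (k : ℝ) ^ s| * (k : ℝ)) * (1 / (s.factorial : ℝ)) := by
            ring
        _ ≤ (|∏ j ∈ Finset.range s, ((k : ℝ) + a + 1 + j) - (k : ℝ) ^ s| * (k : ℝ)) * 1 :=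
            mul_le_mul_of_nonneg_left hf' h2
        _ ≤ K * (k : ℝ) ^ s := by rw [mul_one]; exact h1
        _ ≤ (K + |(a : ℝ)|) * (k : ℝ) ^ s := by
            apply mul_le_mul_of_nonneg_right _ (by positivity)
            linarith [abs_nonneg (a : ℝ)]
    · rw [not_le] at hka
      show |hn (s + 1) ((k : ℤ) + a) - 1 / (s.factorial : ℝ) * (k : ℝ) ^ s| * (k : ℝ) ≤ _
      rw [hn_neg _ _ hka, zero_sub, abs_neg, abs_of_nonneg (by positivity)]
      have hka' : (k : ℝ) ≤ |(a : ℝ)| := by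
        have h1 : (k : ℝ) + a < 0 := by exact_mod_cast hka
        have h2 := neg_le_abs (a : ℝ)
        linarith
      have hks : 0 ≤ (k : ℝ) ^ s := by positivity
      calc 1 / (s.factorial : ℝ) * (k : ℝ) ^ s * (k : ℝ) ≤ 1 * (k : ℝ) ^ s * |(a : ℝ)| := by
            gcongr
        _ = |(a : ℝ)| * (k : ℝ) ^ s := by ring
        _ ≤ (K + |(a : ℝ)|) * (k : ℝ) ^ s := mul_le_mul_of_nonneg_right (by linarith) hks
  · obtain ⟨K, hK, h⟩ := p2 (a : ℝ) s
    obtain ⟨c, hc⟩ : ∃ c : ℝ, c = (s + 1) * (a : ℝ) + (s + 1) * (s + 2) / 2 := ⟨_, rfl⟩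
    rw [← hc] at h
    have hfs : (((s + 1).factorial : ℕ) : ℝ) = (s + 1) * (s.factorial : ℝ) := by
      rw [Nat.factorial_succ]
      push_cast
      ring
    have hf1 : (1 : ℝ) ≤ (s.factorial : ℝ) := by exact_mod_cast Nat.one_le_iff_ne_zero.2 (Nat.factorial_ne_zero s)
    have hf : (1 : ℝ) ≤ ((s + 1).factorial : ℝ) := by
      exact_mod_cast Nat.one_le_iff_ne_zero.2 (Nat.factorial_ne_zero (s + 1))
    have hf' : (1 / ((s + 1).factorial : ℝ)) ≤ 1 := by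
      rw [div_le_one (by linarith)]
      exact hf
    have hf0 : (0 : ℝ) < 1 / ((s + 1).factorial : ℝ) := by positivity
    have hγ : ((a : ℝ) + (s + 2) / 2) / (s.factorial : ℝ) = c * (1 / ((s + 1).factorial : ℝ)) := by
      rw [hfs, hc]
      have h1 : (s.factorial : ℝ) ≠ 0 := by linarith
      have h2 : ((s : ℝ) + 1) ≠ 0 := by positivity
      field_simp
    refine ⟨K + |(a : ℝ)| ^ 2 + |c| * |(a : ℝ)|, ?_⟩
    intro k hk
    have hk1 : (1 : ℝ) ≤ k := by exact_mod_cast hk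
    rw [hγ]
    have hsub : s + 1 - 1 = s := by omega
    rw [hsub]
    by_cases hka : 0 ≤ (k : ℤ) + a
    · show |hn (s + 1 + 1) ((k : ℤ) + a) - (1 / ((s + 1).factorial : ℝ) * (k : ℝ) ^ (s + 1) +
        c * (1 / ((s + 1).factorial : ℝ)) * (k : ℝ) ^ s)| * (k : ℝ) ^ 2 ≤ _
      rw [hn_pos (s + 1) _ hka]
      have e1 : (∏ j ∈ Finset.range (s + 1), ((((k : ℤ) + a : ℤ) : ℝ) + 1 + j)) / ((s + 1).factorial : ℝ)
          - (1 / ((s + 1).factorial : ℝ) * (k : ℝ) ^ (s + 1) +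
        c * (1 / ((s + 1).factorial : ℝ)) * (k : ℝ) ^ s)
          = (∏ j ∈ Finset.range (s + 1), ((k : ℝ) + a + 1 + j) - ((k : ℝ) ^ (s + 1) + c * (k : ℝ) ^ s)) *
            (1 / ((s + 1).factorial : ℝ)) := by
        push_cast
        ring
      rw [e1, abs_mul, abs_of_pos hf0]
      have h1 := h k hk1
      obtain ⟨P, hP⟩ : ∃ P : ℝ, P = |∏ j ∈ Finset.range (s + 1), ((k : ℝ) + a + 1 + j) -
        ((k : ℝ) ^ (s + 1) + c * (k : ℝ) ^ s)| := ⟨_, rfl⟩
      have hP0 : 0 ≤ P := by rw [hP]; exact abs_nonneg _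
      rw [← hP] at h1 ⊢
      calc P * (1 / ((s + 1).factorial : ℝ)) * (k : ℝ) ^ 2
          = (P * (k : ℝ) ^ 2) * (1 / ((s + 1).factorial : ℝ)) := by ring
        _ ≤ (P * (k : ℝ) ^ 2) * 1 := mul_le_mul_of_nonneg_left hf' (by positivity)
        _ ≤ K * (k : ℝ) ^ (s + 1) := by rw [mul_one]; exact h1
        _ ≤ (K + |(a : ℝ)| ^ 2 + |c| * |(a : ℝ)|) * (k : ℝ) ^ (s + 1) := by
            apply mul_le_mul_of_nonneg_right _ (by positivity)
            have : 0 ≤ |c| * |(a : ℝ)| := by positivity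
            nlinarith [sq_nonneg |(a : ℝ)|]
    · rw [not_le] at hka
      show |hn (s + 1 + 1) ((k : ℤ) + a) - (1 / ((s + 1).factorial : ℝ) * (k : ℝ) ^ (s + 1) +
        c * (1 / ((s + 1).factorial : ℝ)) * (k : ℝ) ^ s)| * (k : ℝ) ^ 2 ≤ _
      rw [hn_neg _ _ hka, zero_sub, abs_neg]
      have hka' : (k : ℝ) ≤ |(a : ℝ)| := by
        have h1 : (k : ℝ) + a < 0 := by exact_mod_cast hka
        have h2 := neg_le_abs (a : ℝ)
        linarith
      have hA : |1 / ((s + 1).factorial : ℝ) * (k : ℝ) ^ (s + 1) +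
          c * (1 / ((s + 1).factorial : ℝ)) * (k : ℝ) ^ s| ≤ (k : ℝ) ^ (s + 1) + |c| * (k : ℝ) ^ s := by
        refine (abs_add_le _ _).trans ?_
        rw [abs_mul, abs_mul, abs_mul, abs_of_pos hf0, abs_of_nonneg (by positivity : (0:ℝ) ≤ (k : ℝ) ^ (s + 1)),
          abs_of_nonneg (by positivity : (0:ℝ) ≤ (k : ℝ) ^ s)]
        have h1 : 1 / ((s + 1).factorial : ℝ) * (k : ℝ) ^ (s + 1) ≤ 1 * (k : ℝ) ^ (s + 1) :=
          mul_le_mul_of_nonneg_right hf' (by positivity)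
        have h2 : |c| * (1 / ((s + 1).factorial : ℝ)) * (k : ℝ) ^ s ≤ |c| * 1 * (k : ℝ) ^ s := by
          gcongr
        linarith
      have hk0 : (0 : ℝ) ≤ k := by linarith
      have h3 : (k : ℝ) ^ 2 ≤ |(a : ℝ)| ^ 2 := pow_le_pow_left₀ hk0 hka' 2
      calc |1 / ((s + 1).factorial : ℝ) * (k : ℝ) ^ (s + 1) +
          c * (1 / ((s + 1).factorial : ℝ)) * (k : ℝ) ^ s| * (k : ℝ) ^ 2
          ≤ ((k : ℝ) ^ (s + 1) + |c| * (k : ℝ) ^ s) * (k : ℝ) ^ 2 :=
            mul_le_mul_of_nonneg_right hA (by positivity)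
        _ = (k : ℝ) ^ (s + 1) * (k : ℝ) ^ 2 + |c| * (k : ℝ) * (k : ℝ) ^ (s + 1) := by ring
        _ ≤ (k : ℝ) ^ (s + 1) * |(a : ℝ)| ^ 2 + |c| * |(a : ℝ)| * (k : ℝ) ^ (s + 1) := by
            gcongr
        _ ≤ (K + |(a : ℝ)| ^ 2 + |c| * |(a : ℝ)|) * (k : ℝ) ^ (s + 1) := by
            have : 0 ≤ K * (k : ℝ) ^ (s + 1) := by positivity
            linarith

end Pool.Agent.Helper2.KPA
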